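import Pool.Agent.Helper30.UB.St

/-!
# Module EXC of project UB: exceptional polynomials contribute little
-/

set_option autoImplicit false

namespace Pool.Agent.Helper31.UB

open Polynomial Finset Pool.Agent.Helper15.FC Pool.Agent.Helper30.UB

/-- the quotient of monic polynomials is a monic divisor -/
private lemma monic_div {F : Type} [Field F] [Fintype F] {f g : F[X]} (hf : f.Monic)
    (hg : g ∈ Dv f) : (f / g).Monic ∧ f / g ∣ f := by
  obtain ⟨hgm, hgf⟩ := (mem_Dv hf.ne_zero).1 hg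
  obtain ⟨c, hc⟩ := hgf
  have h1 : f / g = c := by
    rw [hc]
    exact mul_div_cancel_left₀ c hgm.ne_zero
  rw [h1]
  refine ⟨?_, ⟨g, by rw [hc, mul_comm]⟩⟩
  have : (g * c).Monic := hc ▸ hf
  exact hgm.of_mul_monic_left this

/-- `d_k(f) ≤ |Dv f| ^ k` -/
private lemma dk_le (hR : StDKR) {F : Type} [Field F] [Fintype F] (k : ℕ) :
    ∀ f : F[X], f.Monic → dk k f ≤ (Dv f).card ^ k := by
  obtain ⟨⟨h01, h0⟩, hrec, -, -⟩ := hR F
  induction k with
  | zero =>
    intro f hf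
    by_cases h1 : f = 1
    · rw [h1, h01]
      simp
    · rw [h0 f hf h1]
      exact Nat.zero_le _
  | succ k ih =>
    intro f hf
    rw [hrec k f hf]
    have h1 : ∀ g ∈ Dv f, dk k (f / g) ≤ (Dv f).card ^ k := by
      intro g hg
      obtain ⟨hm, hd⟩ := monic_div hf hg
      refine (ih _ hm).trans (Nat.pow_le_pow_left (card_le_card ?_) k)
      intro d hd'
      obtain ⟨hd1, hd2⟩ := (mem_Dv hm.ne_zero).1 hd'
      exact (mem_Dv hf.ne_zero).2 ⟨hd1, hd2.trans hd⟩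
    calc ∑ g ∈ Dv f, dk k (f / g) ≤ ∑ _g ∈ Dv f, (Dv f).card ^ k := sum_le_sum h1
      _ = (Dv f).card ^ (k + 1) := by
        rw [sum_const, smul_eq_mul, pow_succ]
        ring

private lemma q_ge (F : Type) [Field F] [Fintype F] : (2 : ℝ) ≤ qr F := by
  unfold qr
  have : 2 ≤ Fintype.card F := Fintype.one_lt_card
  exact_mod_cast this

/-- `d_k(f) ≤ C q ^ (ε n)` -/
private lemma dk_small (hT : StTAU) (hR : StDKR) (F : Type) [Field F] [Fintype F] (k : ℕ)
    (ε : ℝ) (hε : 0 < ε) : ∃ C : ℝ, 1 ≤ C ∧ ∀ f : F[X], f.Monic →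
      (dk k f : ℝ) ≤ C * qr F ^ (ε * f.natDegree) := by
  have hq := q_ge F
  have hq0 : (0 : ℝ) < qr F := by linarith
  obtain ⟨C, hC, hCb⟩ := hT F (ε / (k + 1)) (by positivity)
  refine ⟨C ^ k, one_le_pow₀ hC, fun f hf => ?_⟩
  have h1 : (dk k f : ℝ) ≤ ((Dv f).card : ℝ) ^ k := by
    exact_mod_cast dk_le hR k f hf
  refine h1.trans ((pow_le_pow_left₀ (by positivity) (hCb f hf) k).trans ?_)
  rw [mul_pow, ← Real.rpow_mul_natCast hq0.le]
  refine mul_le_mul_of_nonneg_left ?_ (by positivity)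
  refine Real.rpow_le_rpow_of_exponent_le (by linarith) ?_
  have h2 : ε / (k + 1) * f.natDegree * k = (ε * f.natDegree) * (k / (k + 1)) := by
    field_simp
  rw [h2]
  have h3 : (k : ℝ) / (k + 1) ≤ 1 := by
    rw [div_le_one (by positivity)]
    linarith
  exact mul_le_of_le_one_right (by positivity) h3

/-- the final numerical estimate -/
private lemma final_est (q : ℝ) (hq : 2 ≤ q) (C : ℝ) (hC : 1 ≤ C) : ∃ n₀ : ℕ, ∀ n : ℕ,
    n₀ ≤ n → q ^ (31 * (n : ℝ) / 32) * Real.exp (14 * √(n : ℝ)) *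
      (C * q ^ ((n : ℝ) / 100)) ≤ q ^ n := by
  have hq0 : (0 : ℝ) < q := by linarith
  refine ⟨max (2800 ^ 2) ⌈200 * Real.log C⌉₊, fun n hn => ?_⟩
  have hn1 : 2800 ^ 2 ≤ n := le_trans (le_max_left _ _) hn
  have hn2 : 200 * Real.log C ≤ n :=
    le_trans (Nat.le_ceil _) (by exact_mod_cast le_trans (le_max_right _ _) hn)
  have hn1' : (2800 : ℝ) ^ 2 ≤ n := by exact_mod_cast hn1
  have hs : 2800 ≤ √(n : ℝ) := by
    rw [show (2800 : ℝ) = √(2800 ^ 2) from (Real.sqrt_sq (by norm_num)).symm]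
    exact Real.sqrt_le_sqrt hn1'
  have hs2 : √(n : ℝ) * √(n : ℝ) = n := Real.mul_self_sqrt (Nat.cast_nonneg n)
  have h14 : 14 * √(n : ℝ) ≤ n / 200 := by nlinarith
  have hlq : 1 / 2 ≤ Real.log q := by
    have h1 := Real.log_two_gt_d9
    have h2 : Real.log 2 ≤ Real.log q := Real.log_le_log (by norm_num) hq
    linarith
  have hn0 : (0 : ℝ) ≤ n := Nat.cast_nonneg n
  have hCe : C = Real.exp (Real.log C) := (Real.exp_log (by linarith)).symm
  have hqn : q ^ n = Real.exp (Real.log q * n) := by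
    rw [← Real.rpow_natCast, Real.rpow_def_of_pos hq0]
  rw [hqn, Real.rpow_def_of_pos hq0, Real.rpow_def_of_pos hq0]
  calc Real.exp (Real.log q * (31 * (n : ℝ) / 32)) * Real.exp (14 * √(n : ℝ)) *
      (C * Real.exp (Real.log q * ((n : ℝ) / 100)))
      = Real.exp (Real.log q * (31 * (n : ℝ) / 32)) * Real.exp (14 * √(n : ℝ)) *
      (Real.exp (Real.log C) * Real.exp (Real.log q * ((n : ℝ) / 100))) := by rw [← hCe]
    _ = Real.exp (Real.log q * (31 * (n : ℝ) / 32) + 14 * √(n : ℝ) +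
      (Real.log C + Real.log q * ((n : ℝ) / 100))) := by
        rw [Real.exp_add, Real.exp_add, Real.exp_add]
    _ ≤ Real.exp (Real.log q * n) := by
        apply Real.exp_le_exp.2
        have h5 : (n : ℝ) / 100 ≤ Real.log q * (n * (1 - 31 / 32 - 1 / 100)) := by
          have h6 : 1 / 2 * ((n : ℝ) * (1 - 31 / 32 - 1 / 100)) ≤
              Real.log q * (n * (1 - 31 / 32 - 1 / 100)) :=
            mul_le_mul_of_nonneg_right hlq (by
              have : (0 : ℝ) ≤ 1 - 31 / 32 - 1 / 100 := by norm_num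
              positivity)
          refine le_trans ?_ h6
          linarith
        linarith

open scoped Classical in
theorem hEXC (hS : StSMO) (hT : StTAU) (hR : StDKR) : StEXC := by
  intro F _ _ k l h hh
  have hq := q_ge F
  have hq0 : (0 : ℝ) < qr F := by linarith
  obtain ⟨C₁, hC₁, hk⟩ := dk_small hT hR F k (1 / 200) (by norm_num)
  obtain ⟨C₂, hC₂, hl⟩ := dk_small hT hR F l (1 / 200) (by norm_num)
  obtain ⟨n₀, hn₀⟩ := final_est (qr F) hq (C₁ * C₂) (one_le_mul_of_one_le_of_one_le hC₁ hC₂)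
  refine ⟨max n₀ (h.natDegree + 1), fun n hn => ?_⟩
  have hnn₀ : n₀ ≤ n := le_trans (le_max_left _ _) hn
  have hdeg : h.natDegree + 1 ≤ n := le_trans (le_max_right _ _) hn
  have hn1 : 1 ≤ n := by omega
  -- shifting preserves `M_n`
  have hshift : ∀ f ∈ Mn F n, f + h ∈ Mn F n := by
    intro f hf
    obtain ⟨hfm, hfd⟩ := mem_Mn.1 hf
    have hlt : h.degree < f.degree := by
      rw [degree_eq_natDegree hfm.ne_zero, degree_eq_natDegree hh, hfd]
      exact_mod_cast (by omega : h.natDegree < n)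
    refine mem_Mn.2 ⟨hfm.add_of_left hlt, ?_⟩
    rw [natDegree_add_eq_left_of_degree_lt hlt, hfd]
  -- pointwise bound
  have hpt : ∀ f ∈ Mn F n, (dk k f : ℝ) * (dk l (f + h) : ℝ) ≤
      (C₁ * C₂) * qr F ^ ((n : ℝ) / 100) := by
    intro f hf
    obtain ⟨hfm, hfd⟩ := mem_Mn.1 hf
    obtain ⟨hfm', hfd'⟩ := mem_Mn.1 (hshift f hf)
    have h1 := hk f hfm
    have h2 := hl (f + h) hfm'
    rw [hfd] at h1
    rw [hfd'] at h2
    have h3 : (qr F ^ ((n : ℝ) / 100) : ℝ) =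
        qr F ^ (1 / 200 * (n : ℝ)) * qr F ^ (1 / 200 * (n : ℝ)) := by
      rw [← Real.rpow_add hq0]
      congr 1
      ring
    rw [h3]
    calc (dk k f : ℝ) * (dk l (f + h) : ℝ)
        ≤ (C₁ * qr F ^ (1 / 200 * (n : ℝ))) * (C₂ * qr F ^ (1 / 200 * (n : ℝ))) :=
          mul_le_mul h1 h2 (Nat.cast_nonneg _) (by positivity)
      _ = _ := by ring
  have hbound : ∀ S : Finset F[X], S ⊆ Mn F n →
      ((S.card : ℝ) ≤ qr F ^ (31 * (n : ℝ) / 32) * Real.exp (14 * √(n : ℝ))) →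
      ∑ f ∈ S, (dk k f : ℝ) * (dk l (f + h) : ℝ) ≤ qr F ^ n := by
    intro S hSs hSc
    calc ∑ f ∈ S, (dk k f : ℝ) * (dk l (f + h) : ℝ)
        ≤ ∑ _f ∈ S, (C₁ * C₂) * qr F ^ ((n : ℝ) / 100) :=
          sum_le_sum fun f hf => hpt f (hSs hf)
      _ = (S.card : ℝ) * ((C₁ * C₂) * qr F ^ ((n : ℝ) / 100)) := by
          rw [sum_const, nsmul_eq_mul]
      _ ≤ (qr F ^ (31 * (n : ℝ) / 32) * Real.exp (14 * √(n : ℝ))) *
          ((C₁ * C₂) * qr F ^ ((n : ℝ) / 100)) :=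
          mul_le_mul_of_nonneg_right hSc (by positivity)
      _ ≤ qr F ^ n := hn₀ n hnn₀
  have hsm := hS F n hn1
  refine ⟨hbound _ (filter_subset _ _) hsm, hbound _ (filter_subset _ _) (le_trans ?_ hsm)⟩
  exact_mod_cast card_le_card_of_injOn (fun f => f + h)
    (fun f hf => by
      have hf' := mem_filter.1 (mem_coe.1 hf)
      exact mem_coe.2 (mem_filter.2 ⟨hshift f hf'.1, hf'.2⟩))
    (fun a _ b _ hab => add_right_cancel hab)

end Pool.Agent.Helper31.UB
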